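import Mathlib
import Pool.Agent.Helper47.Knight.Meas

/-!
Span sets of Knight's embedded random walks converge in probability, in Hausdorff distance, to the
span set of Brownian motion.
-/

open scoped NNReal
open Filter MeasureTheory ProbabilityTheory
open Pool.Agent.Helper47.Knight

namespace Pool.Agent.Results.MP_512e2b_pr.SpanSets

/-- For every standard Brownian motion `B` (on any probability space), the Hausdorff distance
between the rescaled span set `2 ^ (-2 n) * Sp^(n)` of Knight's `n`-th embedded walk and the
span set of `B` on `[0,1]` tends to `0` in probability as `n → ∞`. -/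
theorem result {Ω : Type*} [MeasurableSpace Ω] {P : Measure Ω} {B : ℝ≥0 → Ω → ℝ}
    (hB : IsBrownianReal B P) :
    TendstoInMeasure P (fun (n : ℕ) (ω : Ω) => Metric.hausdorffDist
      (scaledSpan (fun t => B t ω) n) (spanSet (fun t => B t ω))) atTop (fun _ => 0) :=
  tendstoInMeasure hB

end Pool.Agent.Results.MP_512e2b_pr.SpanSets
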